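import Pool.Agent.H249.ZG.Fin
import Pool.Agent.H249.ZG.OntoDefs

/-!
# Polylogarithms and `K_{2n-1}` of number fields: cyclic groups of automorphisms

Degree one of `Γ(F, n) ⊗ ℚ` for number fields: is `l_n : ker δ_n ⊗ ℚ → K_{2n-1}(F) ⊗ ℚ` surjective?
Given the theorems of Borel, Beilinson, Deligne and de Jeu and Galois descent for `K_{2n-1}(F) ⊗ ℚ`:

* Let `A` be a cyclic group of automorphisms of `F` and let `l_n` be surjective for the fields fixed by
  the subgroups of `A` of prime order. Then `l_n` is surjective for `F` if and only if the sums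
  `σ ↦ ∑_{a ∈ A} χ(a) ℒ̃_n(σ a α)`, `α` in `ker δ_n(F)`, for ONE faithful character `χ` of `A`, span all
  functions of `σ` with their symmetries.
* So `l_n` is surjective for all number fields if the sums span in this sense, for some `A` and `χ`,
  for all number fields whose automorphism groups have only cyclic subgroups of order `p q`
  (`p`, `q` primes) and which are not CM (odd `n`), not totally real (even `n`).
-/

set_option autoImplicit false

open NumberField

namespace Pool.Agent.Results.MP_9c6ec7_al.CyclicAutomorphismsDecide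

open Pool.Agent.H249.ZG

theorem onto_iff {n : ℕ} {K : Spaces} (hK : Facts n K) {F : Type} [Field F] [NumberField F] :
    Onto n K F ↔ Zagier n F := by
  rw [zagier_iff hK]
  constructor
  · intro h f hf
    obtain ⟨α, hα, m, hm, he⟩ := h f hf
    refine ⟨α, hα, m, hm, ?_⟩
    funext σ
    rw [Pi.smul_apply, zsmul_eq_mul]
    exact he σ
  · intro h f hf
    obtain ⟨α, hα, m, hm, he⟩ := h hf
    refine ⟨α, hα, m, hm, fun σ => ?_⟩
    rw [← he, Pi.smul_apply, zsmul_eq_mul]

theorem result (n : ℕ) (hn : 2 ≤ n) (K : Spaces) (hK : Facts n K) :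
    (∀ (F : Type) [Field F] [NumberField F] (A : Subgroup (Aut F)), OntoPrime n K A →
      ∀ χ : Chr A, Faithful χ → (Onto n K F ↔ Spanned n χ)) ∧
    ∀ (F : Type) [Field F] [NumberField F],
      (∀ (F' : Type) [Field F'] [NumberField F'], (F' →+* F) → CycPQ (Aut F') →
        Essential n F' → SomeSpanned n F') → Onto n K F := by
  constructor
  · intro F _ _ A hA χ hχ
    rw [onto_iff hK]
    exact ⟨spanned_of_zagier hn hK χ, zagier_of_spanned hK χ hχ fun B hB hp =>
      (onto_iff hK).1 (hA B hB hp)⟩
  · intro F _ _ h
    exact (onto_iff hK).2 (from_spanned hK _ F (Nat.lt_succ_self _) h)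

end Pool.Agent.Results.MP_9c6ec7_al.CyclicAutomorphismsDecide
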