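import Pool.Agent.Q22.GW.BlP

/-!
# The last two places of Goncharov's polylogarithmic complexes of the field of rational numbers

For `n ≥ 3` the kernel of `(B_2(ℚ) ⊗ Λ^(n-2) ℚ^*)_ℚ → (Λ^n ℚ^*)_ℚ` is spanned by the elements
`{x}_2 ⊗ x ∧ y_1 ∧ ... ∧ y_(n-3)` (the boundaries) and by the products of the elements of
`ker (B_2(ℚ) → Λ² ℚ^*)` and of elements of `Λ^(n-2) ℚ^*`.

The definitions are in `Pool/Agent/H39R2/GonP/Defs.lean` and in `Pool/Agent/Q22/GW/BlP.lean`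
(`Boundaries`, `BlochProducts`).
-/

namespace Pool.Agent.Results.MP_9c6ec7_al.RationalNumbersLastPlaces

open GonP Pool.Agent.Q22.GW

theorem result :
    -- the differentials `(B_2(ℚ) ⊗ Λ^j ℚ^*)_ℚ → (Λ^(j+2) ℚ^*)_ℚ` exist and are unique
    (∀ j, ∃! e : TQ ℚ 2 j → LQ ℚ (j + 2), IsE j e) ∧
      -- they are surjective
      (∀ j, ∀ e : TQ ℚ 2 j → LQ ℚ (j + 2), IsE j e → Function.Surjective e) ∧
      -- their kernels, `n = j + 3 ≥ 3`
      ∀ j, ∀ e : TQ ℚ 2 (j + 1) → LQ ℚ (j + 3), IsE (j + 1) e → ∀ ξ : TQ ℚ 2 (j + 1),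
        e ξ = 0 ↔ ξ ∈ Submodule.span ℚ (Boundaries ℚ j ∪ BlochProducts ℚ (j + 1)) :=
  ⟨fun j => ⟨eG ℚ j, eG_spec j, fun _ he => isE_unique he (eG_spec j)⟩,
    fun j e he => surj_eG j spanDual0_rat e he,
    fun j e he ξ => ker_eG j spanDual1_rat e he ξ⟩

end Pool.Agent.Results.MP_9c6ec7_al.RationalNumbersLastPlaces
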