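import Pool.Agent.Q22.GW.Fin

/-!
# Goncharov's polylogarithmic complexes of `k(x)`, `k` algebraic over `F_p`, in weight three

Let `k` be an algebraic extension of `F_p`, for instance a finite field, and `F = k(x)`. The
complexes `Γ(F,2) ⊗ ℚ` and `Γ(F,3) ⊗ ℚ` are acyclic. For all `n ≥ 2` the groups
`H^1(Γ(F,n) ⊗ ℚ)`, `H^n(Γ(F,n) ⊗ ℚ)` and, if `n ≥ 3`, `H^(n-1)(Γ(F,n) ⊗ ℚ)` vanish.

The definitions are in `Pool/Agent/H39R2/GonP/Defs.lean`.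
-/

namespace Pool.Agent.Results.MP_9c6ec7_al.WeightThreeRatFunc

open GonP

theorem result (p : ℕ) [Fact p.Prime] (k : Type) [Field k] [Algebra (ZMod p) k]
    [Algebra.IsAlgebraic (ZMod p) k] :
    -- the differentials of all the complexes `Γ(F,n) ⊗ ℚ`, `n ≥ 2`, `F = k(x)`, exist and are unique
    ∃ D : Differentials (RatFunc k), (∀ D' : Differentials (RatFunc k), D' = D) ∧
      -- weight 2: `B_2(F) → Λ² F^*` is bijective after `⊗ ℚ`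
      Function.Bijective (D.e 0) ∧
      -- weight 3: `0 → B_3(F) → B_2(F) ⊗ F^* → Λ³ F^* → 0` is exact after `⊗ ℚ`
      (Function.Injective (D.d 0 0) ∧ Function.Exact (D.d 0 0) (D.e 1) ∧
        Function.Surjective (D.e 1)) ∧
      -- weight `n = m + 3 ≥ 3`: `H^1(Γ(F,n) ⊗ ℚ) = 0`
      (∀ m, Function.Injective (D.d m 0)) ∧
      -- weight `n = j + 3 ≥ 3`: `H^(n-1)(Γ(F,n) ⊗ ℚ) = 0`
      (∀ j, Function.Exact (D.d 0 j) (D.e (j + 1))) ∧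
      -- weight `n = j + 2 ≥ 2`: `H^n(Γ(F,n) ⊗ ℚ) = 0`
      (∀ j, Function.Surjective (D.e j)) := by
  obtain ⟨D, h1, ⟨h2, h3⟩, h4, h5⟩ := Pool.Agent.Q22.GW.ratFunc_complexes p k
  exact ⟨D, h1, ⟨h3, h5 0⟩, ⟨h2 0, h4 0, h5 1⟩, h2, h4, h5⟩

end Pool.Agent.Results.MP_9c6ec7_al.WeightThreeRatFunc
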